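import Mathlib
import Pool.Agent.Work.MP_c292ad_nt.Defs

set_option autoImplicit false

open Finset Pool.Agent.Work.MP_c292ad_nt

/-- Full answer to Q2: the numbers `W_k` are integers and the weighted sum of their squares is
congruent to `n ^ 2` modulo `8 n`. -/
theorem Pool.Agent.Results.MP_c292ad_nt.Q2Full.result :
    ∃ W : ℕ → ℤ,
      (∀ n : ℕ, (W n : ℚ) = ∑ k ∈ Finset.range (n + 1),
        (Nat.choose (n + k) (2 * k) : ℚ) * (Nat.choose (2 * k) k : ℚ) * (3 / (2 * (k : ℚ) - 3))) ∧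
      ∀ n : ℕ, 0 < n →
        ∑ k ∈ Finset.range n, (2 * (k : ℤ) + 1) * (W k) ^ 2 ≡ (n : ℤ) ^ 2 [ZMOD 8 * (n : ℤ)] := by
  refine ⟨fun n => R n + 8 * X n, W_formula, ?_⟩
  intro n hn
  exact (Int.modEq_iff_dvd.mpr (Q2_main n hn)).symm
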